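import Pool.Agent.MP_ab119d_nt.H36.Main

/-!
A basic sequence, infinite in limit and fully divergent of type I, for which the set of normal
numbers that are abnormal along all the progressions has Hausdorff dimension zero.
-/

set_option autoImplicit false

open Filter Topology Pool.Agent.MP_ab119d_nt.H36

namespace Pool.Agent.Results.MP_ab119d_nt.DimZero

theorem result : ∃ q : ℕ → ℕ, (∀ n, 1 ≤ n → 2 ≤ q n) ∧ Tendsto q atTop atTop ∧
    (∀ k m r : ℕ, 1 ≤ k → 1 ≤ m → r < m →
      Tendsto (fun n => wt q k (apPos n m r)) atTop atTop) ∧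
    dimH (normalSet q \ ⋃ k, ⋃ (_ : 2 ≤ k), ⋃ r, ⋃ (_ : r < k), apNormalSet q k k r) = 0 :=
  ⟨q, fun n _ => two_le_q n, tendsto_q, fun k m r _ _ hr => fully_divergent k m r hr, dimH_main⟩

end Pool.Agent.Results.MP_ab119d_nt.DimZero
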